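import Pool.Agent.Helper41.KV.GoalsE

/-!
# Packet KV-PR (5309, helper41): the profiles `R` and `P`
-/

namespace Pool.Agent.Helper38.KV

open Real MeasureTheory Filter Topology Pool.Agent.Helper41.KV

theorem tanh_lower (x : ℝ) : 1 - 2 * Real.exp (-(2 * x)) ≤ Real.tanh x := by
  rw [Real.tanh_eq_sinh_div_cosh, Real.sinh_eq, Real.cosh_eq]
  have h1 : Real.exp (-(2 * x)) = Real.exp (-x) * Real.exp (-x) := by
    rw [← Real.exp_add]; congr 1; ring
  have h2 : Real.exp x * Real.exp (-x) = 1 := by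
    rw [← Real.exp_add]; simp
  have hp : 0 < Real.exp x := Real.exp_pos x
  have hq : 0 < Real.exp (-x) := Real.exp_pos (-x)
  rw [le_div_iff₀ (by positivity), h1]
  nlinarith [mul_pos hq hq, mul_pos (mul_pos hq hq) hq]

theorem tendsto_tanh_top : Tendsto (fun x : ℝ => Real.tanh (2 * x)) atTop (𝓝 1) := by
  have h1 : Tendsto (fun x : ℝ => 1 - 2 * Real.exp (-(2 * (2 * x)))) atTop (𝓝 1) := by
    have h2 : Tendsto (fun x : ℝ => Real.exp (-(2 * (2 * x)))) atTop (𝓝 0) := by
      apply Real.tendsto_exp_neg_atTop_nhds_zero.comp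
      exact (tendsto_id.const_mul_atTop (by norm_num : (0 : ℝ) < 2)).const_mul_atTop (by norm_num)
    have h3 := (h2.const_mul 2).const_sub 1
    simpa using h3
  exact tendsto_of_tendsto_of_tendsto_of_le_of_le h1 tendsto_const_nhds
    (fun x => tanh_lower (2 * x)) (fun x => (Real.tanh_lt_one (2 * x)).le)

theorem tendsto_tanh_bot : Tendsto (fun x : ℝ => Real.tanh (2 * x)) atBot (𝓝 (-1)) := by
  have h := (tendsto_tanh_top.comp tendsto_neg_atBot_atTop).neg
  refine h.congr fun x => ?_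
  simp only [Function.comp, mul_neg, Real.tanh_neg, neg_neg]

theorem chiM_top : Tendsto chiM atTop (𝓝 0) := by
  have h := (tendsto_tanh_top.const_sub 1).div_const 2
  have h2 : ((1 : ℝ) - 1) / 2 = 0 := by norm_num
  rw [h2] at h
  exact h

theorem chiM_bot : Tendsto chiM atBot (𝓝 1) := by
  have h := (tendsto_tanh_bot.const_sub 1).div_const 2
  have h2 : ((1 : ℝ) - -1) / 2 = 1 := by norm_num
  rw [h2] at h
  exact h

/-- bounded by an exponential: tends to zero -/
theorem IsE.tendsto {f : ℝ → ℝ} (hf : IsE f) : Tendsto f atTop (𝓝 0) ∧ Tendsto f atBot (𝓝 0) := by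
  obtain ⟨C, hC⟩ := hf.2 0 (1 / 2) (by norm_num)
  have hb : ∀ y, |f y| ≤ C * Real.exp (-(1 / 2 * |y|)) := by
    intro y
    have := hC y
    rwa [iteratedDeriv_zero] at this
  have hE : Tendsto (fun x : ℝ => C * Real.exp (-(1 / 2 * |x|))) atTop (𝓝 0) := by
    have h1 : Tendsto (fun x : ℝ => Real.exp (-(1 / 2 * |x|))) atTop (𝓝 0) := by
      apply Real.tendsto_exp_neg_atTop_nhds_zero.comp
      exact tendsto_abs_atTop_atTop.const_mul_atTop (by norm_num)
    simpa using h1.const_mul C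
  have hE' : Tendsto (fun x : ℝ => C * Real.exp (-(1 / 2 * |x|))) atBot (𝓝 0) := by
    have h1 : Tendsto (fun x : ℝ => Real.exp (-(1 / 2 * |x|))) atBot (𝓝 0) := by
      apply Real.tendsto_exp_neg_atTop_nhds_zero.comp
      exact tendsto_abs_atBot_atTop.const_mul_atTop (by norm_num)
    simpa using h1.const_mul C
  constructor
  · exact squeeze_zero_norm (fun y => by rw [Real.norm_eq_abs]; exact hb y) hE
  · exact squeeze_zero_norm (fun y => by rw [Real.norm_eq_abs]; exact hb y) hE'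

section Closure

variable (hQ : S_QF) (hE : S_ECL1)
include hE

theorem E_add {f g : ℝ → ℝ} (hf : IsE f) (hg : IsE g) : IsE (fun y => f y + g y) :=
  hE.2.2.1 f g hf hg

theorem P_add {f g : ℝ → ℝ} (hf : IsP f) (hg : IsP g) : IsP (fun y => f y + g y) :=
  hE.2.2.2.2.1 f g hf hg

theorem PE_mul {f g : ℝ → ℝ} (hf : IsP f) (hg : IsE g) : IsE (fun y => f y * g y) :=
  hE.2.2.2.2.2.1 f g hf hg

theorem P_mul {f g : ℝ → ℝ} (hf : IsP f) (hg : IsP g) : IsP (fun y => f y * g y) :=
  hE.2.2.2.2.2.2.2.1 f g hf hg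

theorem E_P {f : ℝ → ℝ} (hf : IsE f) : IsP f := hE.2.1 f (hE.1 f hf)

theorem E_deriv {f : ℝ → ℝ} (hf : IsE f) : IsE (deriv f) := hE.2.2.2.2.2.2.2.2.1 f hf

theorem P_deriv {f : ℝ → ℝ} (hf : IsP f) : IsP (deriv f) := hE.2.2.2.2.2.2.2.2.2.2.1 f hf

theorem P_poly (p : Polynomial ℝ) : IsP (fun y => p.eval y) := hE.2.2.2.2.2.2.2.2.2.2.2.1 p

theorem P_tanh : IsP (fun y => Real.tanh (2 * y)) := hE.2.2.2.2.2.2.2.2.2.2.2.2.1

theorem E_int {f : ℝ → ℝ} (hf : IsE f) : Integrable f := hE.2.2.2.2.2.2.2.2.2.2.2.2.2.2.2.2 f hf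

theorem P_const (c : ℝ) : IsP (fun _ => c) := by
  have := P_poly hE (Polynomial.C c)
  simpa using this

theorem P_id : IsP (fun y => y) := by
  have := P_poly hE (Polynomial.X)
  simpa using this

theorem E_smul (c : ℝ) {f : ℝ → ℝ} (hf : IsE f) : IsE (fun y => c * f y) :=
  PE_mul hE (P_const hE c) hf

theorem E_sub {f g : ℝ → ℝ} (hf : IsE f) (hg : IsE g) : IsE (fun y => f y - g y) := by
  have h := E_add hE hf (E_smul hE (-1) hg)
  have he : (fun y => f y + -1 * g y) = fun y => f y - g y := by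
    funext y; ring
  rwa [he] at h

theorem P_chiM : IsP chiM := by
  have h := P_add hE (P_const hE (1 / 2)) (P_mul hE (P_const hE (-1 / 2)) (P_tanh hE))
  have he : (fun y => (1 / 2 : ℝ) + -1 / 2 * Real.tanh (2 * y)) = chiM := by
    funext y; unfold chiM; ring
  rwa [he] at h

end Closure

theorem P_diff {f : ℝ → ℝ} (hf : IsP f) (y : ℝ) : HasDerivAt f (deriv f y) y :=
  ((hf.1.differentiable (by simp)) y).hasDerivAt

theorem E_diff {f : ℝ → ℝ} (hf : IsE f) (y : ℝ) : HasDerivAt f (deriv f y) y :=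
  ((hf.1.differentiable (by simp)) y).hasDerivAt

/-- `∫ F' = 0` for `F` in the class `IsE` -/
theorem int_zero (hE : S_ECL1) {F F' : ℝ → ℝ} (hF : IsE F) (hd : ∀ y, HasDerivAt F (F' y) y) :
    (∫ y, F' y) = 0 := by
  have he : deriv F = F' := by
    funext y; exact (hd y).deriv
  have hint : Integrable F' := by
    rw [← he]; exact E_int hE (E_deriv hE hF)
  exact integral_eq_zero_of_hasDerivAt_of_integrable hd hint (E_int hE hF)

/-- self-adjointness of `L` -/
theorem selfadj (hE : S_ECL1) {f g : ℝ → ℝ} (hf : IsP f) (hg : IsE g)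
    (hLg : Integrable (fun y => f y * Lop g y)) :
    (∫ y, f y * Lop g y) = ∫ y, Lop f y * g y := by
  have hf' := P_deriv hE hf
  have hg' := E_deriv hE hg
  have hW : IsE (fun y => f y * deriv g y - deriv f y * g y) :=
    E_sub hE (PE_mul hE hf hg') (PE_mul hE hf' hg)
  have hd : ∀ y, HasDerivAt (fun y => f y * deriv g y - deriv f y * g y)
      (f y * deriv (deriv g) y - deriv (deriv f) y * g y) y := by
    intro y
    have h1 := (P_diff hf y).mul (E_diff hg' y)
    have h2 := (P_diff hf' y).mul (E_diff hg y)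
    exact (h1.sub h2).congr_deriv (by ring)
  have h0 := int_zero hE hW hd
  have hWi : Integrable (fun y => f y * deriv (deriv g) y - deriv (deriv f) y * g y) := by
    have he : deriv (fun y => f y * deriv g y - deriv f y * g y)
        = (fun y => f y * deriv (deriv g) y - deriv (deriv f) y * g y) := by
      funext y; exact (hd y).deriv
    rw [← he]; exact E_int hE (E_deriv hE hW)
  have hpt : (fun y => Lop f y * g y) = fun y => f y * Lop g y
      + (f y * deriv (deriv g) y - deriv (deriv f) y * g y) := by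
    funext y; unfold Lop; ring
  rw [hpt, integral_add hLg hWi, h0, add_zero]

theorem isE_Q (hQ : S_QF) : IsE Q := by
  refine ⟨hQ.1, ?_⟩
  intro k μ hμ
  obtain ⟨C, hC⟩ := hQ.2.2.2.2.2.2.1 k
  refine ⟨|C|, fun y => (hC y).trans ?_⟩
  refine mul_le_mul (le_abs_self C) ?_ (Real.exp_pos _).le (abs_nonneg C)
  apply Real.exp_le_exp.2
  nlinarith [abs_nonneg y]

theorem Q_d (hQ : S_QF) (y : ℝ) : HasDerivAt Q (deriv Q y) y := E_diff (isE_Q hQ) y

theorem Q_dd (hQ : S_QF) (hE : S_ECL1) (y : ℝ) : HasDerivAt (deriv Q) (Q y - Q y ^ 5) y := by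
  have h := E_diff (E_deriv hE (isE_Q hQ)) y
  rwa [hQ.2.2.2.2.2.1 y] at h

theorem Lam_deriv (hQ : S_QF) (hE : S_ECL1) :
    deriv (Lam Q) = fun y => 3 / 2 * deriv Q y + y * (Q y - Q y ^ 5) := by
  funext y
  have h : HasDerivAt (Lam Q) (deriv Q y / 2 + (1 * deriv Q y + y * (Q y - Q y ^ 5))) y :=
    ((Q_d hQ y).div_const 2).add ((hasDerivAt_id y).mul (Q_dd hQ hE y))
  rw [h.deriv]; ring

theorem Lop_Lam (hQ : S_QF) (hE : S_ECL1) (y : ℝ) : Lop (Lam Q) y = -2 * Q y := by
  have h : HasDerivAt (fun y => 3 / 2 * deriv Q y + y * (Q y - Q y ^ 5))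
      (3 / 2 * (Q y - Q y ^ 5) + (1 * (Q y - Q y ^ 5)
        + y * (deriv Q y - (5 : ℕ) * Q y ^ (5 - 1) * deriv Q y))) y :=
    ((Q_dd hQ hE y).const_mul (3 / 2)).add ((hasDerivAt_id y).mul ((Q_d hQ y).sub ((Q_d hQ y).pow 5)))
  unfold Lop
  rw [Lam_deriv hQ hE, h.deriv]
  unfold Lam
  push_cast
  ring

theorem isE_Lam (hQ : S_QF) (hE : S_ECL1) : IsE (Lam Q) := by
  have h1 := E_smul hE (1 / 2) (isE_Q hQ)
  have h2 := PE_mul hE (P_id hE) (E_deriv hE (isE_Q hQ))
  have h := E_add hE h1 h2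
  have he : (fun y => 1 / 2 * Q y + y * deriv Q y) = Lam Q := by
    funext y; unfold Lam; ring
  rwa [he] at h

/-- `∫ ΛQ = -(1/2) ∫ Q` -/
theorem int_Lam (hQ : S_QF) (hE : S_ECL1) : (∫ y, Lam Q y) = -((∫ y, Q y) / 2) := by
  have hF : IsE (fun y => y * Q y) := PE_mul hE (P_id hE) (isE_Q hQ)
  have hd : ∀ y, HasDerivAt (fun y => y * Q y) (Lam Q y + 1 / 2 * Q y) y := by
    intro y
    have h := (hasDerivAt_id y).mul (Q_d hQ y)
    exact h.congr_deriv (by unfold Lam; simp only [id]; ring)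
  have h0 := int_zero hE hF hd
  rw [integral_add (E_int hE (isE_Lam hQ hE)) ((E_int hE (isE_Q hQ)).const_mul _),
    integral_const_mul] at h0
  linarith

/-- `∫ ΛQ · Q = 0` -/
theorem int_Lam_Q (hQ : S_QF) (hE : S_ECL1) : (∫ y, Lam Q y * Q y) = 0 := by
  have hQP := E_P hE (isE_Q hQ)
  have hF : IsE (fun y => 1 / 2 * (y * (Q y * Q y))) :=
    E_smul hE (1 / 2) (PE_mul hE (P_id hE) (PE_mul hE hQP (isE_Q hQ)))
  have hd : ∀ y, HasDerivAt (fun y => 1 / 2 * (y * (Q y * Q y))) (Lam Q y * Q y) y := by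
    intro y
    have h := ((hasDerivAt_id y).mul ((Q_d hQ y).mul (Q_d hQ y))).const_mul (1 / 2)
    exact h.congr_deriv (by unfold Lam; simp only [id, Pi.mul_apply]; ring)
  exact int_zero hE hF hd

/-- pairing with `Q` through `L ΛQ = -2 Q` -/
theorem pair_Q (hQ : S_QF) (hE : S_ECL1) {f : ℝ → ℝ} (hf : IsP f) :
    (∫ y, f y * Q y) = -(1 / 2) * ∫ y, Lop f y * Lam Q y := by
  have hLe : (fun y => f y * Lop (Lam Q) y) = fun y => -2 * (f y * Q y) := by
    funext y; rw [Lop_Lam hQ hE]; ring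
  have hi : Integrable (fun y => f y * Lop (Lam Q) y) := by
    rw [hLe]; exact (E_int hE (PE_mul hE hf (isE_Q hQ))).const_mul _
  have h := selfadj hE hf (isE_Lam hQ hE) hi
  rw [hLe, integral_const_mul] at h
  linarith

theorem Qd_odd (hQ : S_QF) (y : ℝ) : deriv Q (-y) = - deriv Q y := by
  rw [hQ.2.2.2.2.1 (-y), hQ.2.2.2.2.1 y, hQ.2.2.1 y, mul_neg, Real.tanh_neg]; ring

theorem thm_PR (hQ : S_QF) (hE : S_ECL1) (_hE2 : S_ECL2) (hG : S_GREEN) (hS : S_SOLVEP) : S_PR := by
  have hEQ := isE_Q hQ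
  have hQP := E_P hE hEQ
  refine ⟨fun y => Lop_Lam hQ hE y, ?_⟩
  -- the profile R
  have hg : IsE (fun y => 5 * Q y ^ 4) := by
    have h := E_smul hE 5 (PE_mul hE hQP (PE_mul hE hQP (PE_mul hE hQP hEQ)))
    have he : (fun y => 5 * (Q y * (Q y * (Q y * Q y)))) = fun y => 5 * Q y ^ 4 := by
      funext y; ring
    rwa [he] at h
  have hg0 : (∫ y, 5 * Q y ^ 4 * deriv Q y) = 0 := by
    have hF : IsE (fun y => Q y ^ 5) := by
      have h := PE_mul hE hQP (PE_mul hE hQP (PE_mul hE hQP (PE_mul hE hQP hEQ)))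
      have he : (fun y => Q y * (Q y * (Q y * (Q y * Q y)))) = fun y => Q y ^ 5 := by
        funext y; ring
      rwa [he] at h
    have hd : ∀ y, HasDerivAt (fun y => Q y ^ 5) (5 * Q y ^ 4 * deriv Q y) y := by
      intro y
      have h := (Q_d hQ y).pow 5
      exact h.congr_deriv (by norm_num)
    exact int_zero hE hF hd
  obtain ⟨R, hR, hLR, -, hRev, -⟩ := hG.1 _ hg hg0
  have hReven : ∀ y, R (-y) = R y := hRev (fun y => by rw [hQ.2.2.1 y])
  have hL1R : ∀ y, Lop (fun x => 1 + R x) y = 1 := by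
    intro y
    have hd1 : deriv (fun x => 1 + R x) = deriv R := by
      funext x; exact deriv_const_add 1
    have h := hLR y
    unfold Lop at h ⊢
    rw [hd1]
    linarith
  have h1R : IsP (fun x => 1 + R x) := P_add hE (P_const hE 1) (E_P hE hR)
  have hRQ : (∫ y, (1 + R y) * Q y) = (∫ y, Q y) / 4 := by
    have h := pair_Q hQ hE h1R
    rw [h]
    simp only [hL1R, one_mul]
    rw [int_Lam hQ hE]; ring
  -- the profile P
  have hT0 : HasTail 0 (Lam Q) := by
    unfold HasTail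
    have he : (fun y => Lam Q y - Polynomial.eval y 0 * chiM y) = Lam Q := by
      funext y; simp
    rw [he]; exact isE_Lam hQ hE
  obtain ⟨q, P1, P, hP, hPd, hP1, hq, hPE⟩ := hS 0 (Lam Q) hT0 (int_Lam_Q hQ hE)
  -- P1 is a constant
  obtain ⟨a, ha⟩ : ∃ a, P1 = Polynomial.C a :=
    ⟨_, Polynomial.eq_C_of_natDegree_eq_zero (Polynomial.derivative_eq_zero.1 hP1)⟩
  have hq0 : q.natDegree = 0 := by
    by_contra hne
    have h1 : q = P1 + q.derivative.derivative := by rw [← hq]; ring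
    have h2 : q.natDegree ≤ max P1.natDegree q.derivative.derivative.natDegree := by
      conv_lhs => rw [h1]
      exact Polynomial.natDegree_add_le _ _
    have h3 : q.derivative.natDegree ≤ q.natDegree - 1 := Polynomial.natDegree_derivative_le q
    have h4 : q.derivative.derivative.natDegree ≤ q.derivative.natDegree - 1 :=
      Polynomial.natDegree_derivative_le _
    have h5 : P1.natDegree = 0 := by rw [ha]; exact Polynomial.natDegree_C a
    rw [h5] at h2
    have h6 : q.natDegree ≤ q.derivative.derivative.natDegree := by simpa using h2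
    omega
  have hqa : q = Polynomial.C a := by
    have h1 := Polynomial.eq_C_of_natDegree_eq_zero hq0
    have h2 : q.derivative = 0 := by rw [h1]; simp
    rw [h2] at hq
    simp only [Polynomial.derivative_zero, sub_zero] at hq
    rw [hq, ha]
  -- Lop P
  have hLE : IsE (fun y => Lop P y - a * chiM y) := by
    have h := hPE
    rw [ha] at h
    simpa using h
  have hLeq : Lop P = fun y => (Lop P y - a * chiM y) + a * chiM y := by
    funext y; ring
  have hLP : IsP (Lop P) := by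
    rw [hLeq]
    exact P_add hE (E_P hE hLE) (P_mul hE (P_const hE a) (P_chiM hE))
  have htop : Tendsto (Lop P) atTop (𝓝 0) := by
    rw [hLeq]
    have h := (IsE.tendsto hLE).1.add (chiM_top.const_mul a)
    simpa using h
  have hbot : Tendsto (Lop P) atBot (𝓝 a) := by
    rw [hLeq]
    have h := (IsE.tendsto hLE).2.add (chiM_bot.const_mul a)
    simpa using h
  have haQ : a = (∫ y, Q y) / 2 := by
    have h := integral_of_hasDerivAt_of_tendsto hPd (E_int hE (isE_Lam hQ hE)) hbot htop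
    rw [int_Lam hQ hE] at h
    linarith
  have hPP : IsP P := by
    have h := P_add hE (E_P hE hP) (P_mul hE (P_poly hE q) (P_chiM hE))
    have he : (fun y => (P y - q.eval y * chiM y) + q.eval y * chiM y) = P := by
      funext y; ring
    rwa [he] at h
  have hPQ : (∫ y, P y * Q y) = (∫ y, Q y) ^ 2 / 16 := by
    rw [pair_Q hQ hE hPP]
    have hd : ∀ y, HasDerivAt (fun y => Lop P y * Lop P y) (2 * (Lop P y * Lam Q y)) y := by
      intro y
      have h := (hPd y).mul (hPd y)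
      exact h.congr_deriv (by ring)
    have hi : Integrable (fun y => 2 * (Lop P y * Lam Q y)) :=
      (E_int hE (PE_mul hE hLP (isE_Lam hQ hE))).const_mul 2
    have h := integral_of_hasDerivAt_of_tendsto hd hi (hbot.mul hbot) (htop.mul htop)
    rw [integral_const_mul] at h
    have h2 : (∫ y, Lop P y * Lam Q y) = -(a * a) / 2 := by linarith
    rw [h2, haQ]; ring
  refine ⟨R, P, hR, hReven, hL1R, hRQ, ?_, hPd, ?_, hPQ⟩
  · rw [← haQ, ← hqa]; exact hP
  · rw [← haQ]; exact hLE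

end Pool.Agent.Helper38.KV

namespace Pool.Agent.Helper41.KV

theorem thm_PR (hQ : S_QF) (hE : S_ECL1) (hE2 : S_ECL2) (hG : S_GREEN) (hS : S_SOLVEP) : S_PR :=
  Pool.Agent.Helper38.KV.thm_PR hQ hE hE2 hG hS

end Pool.Agent.Helper41.KV
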