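import Pool.Agent.Helper33.KV.GoalsC2

/-!
# Packet KV-DATU: coherent data
-/

namespace Pool.Agent.Helper33.KV

open Real MeasureTheory Pool.Agent.Helper41.KV

theorem thm_DATU (hCU : S_CALLU) (hFN : S_FHN) (hFH : S_FHAM) (hAU : S_AUXF) : S_DATU := by
  intro α R P h0 h1 hRP
  obtain ⟨f0, f1, f2, f3, hA⟩ := hAU α
  obtain ⟨c1, a0, ω2, ω3, e3, ht2, he2, ht3, H⟩ := hCU α R P h0 h1 hRP
    (fun J n p => Fh α f0 f1 f2 f3 n (gZero p J))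
    (fun J n p hJ _ => (hFH α f0 f1 f2 f3 n J h0 h1 hA (by omega)).1 p)
    (fun J n p hJ _ hp => (hFH α f0 f1 f2 f3 n J h0 h1 hA (by omega)).2.1 p hp)
    (fun J n p hJ _ hp hp' => (hFH α f0 f1 f2 f3 n J h0 h1 hA (by omega)).2.2.1 p hp hp')
    (fun J n p j q hJ _ hj hjJ hpj =>
      (hFH α f0 f1 f2 f3 n J h0 h1 hA (by omega)).2.2.2 p j q hj hjJ hpj)
    (fun J n p hJ hn hp => hFN α f0 f1 f2 f3 J n p h0 h1 hA hJ hn hp)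
  refine ⟨f0, f1, f2, f3, c1, a0, ω2, ω3, e3, hA, ht3, ?_⟩
  intro J n hJ hn
  obtain ⟨p, w, hp0, _, hpz, hw, hwe, hFe, hbr⟩ := H J n hJ hn
  exact ⟨p, w, ⟨h0, h1, hRP, hA, hJ, hn, hp0, hpz, ht2, he2, hw, ht3, hwe,
    (hFH α f0 f1 f2 f3 n J h0 h1 hA (by omega)).1 p, hFe, hbr⟩⟩

end Pool.Agent.Helper33.KV
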