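import Pool.Agent.Helper41.KV.GoalsC
import Pool.Agent.Helper38.KV.PR

/-!
# Packet KV-CALL (5422, helper41): the inner expansion to every order
-/

namespace Pool.Agent.Helper41.KV.H38

open Real MeasureTheory Filter Topology Pool.Agent.Helper38.KV

section T

variable (hE : S_ECL1)
include hE

theorem T_add {a b : ℝ → ℝ} (ha : IsT a) (hb : IsT b) : IsT (fun y => a y + b y) := by
  obtain ⟨q1, h1⟩ := ha
  obtain ⟨q2, h2⟩ := hb
  refine ⟨q1 + q2, ?_⟩
  have h := E_add hE h1 h2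
  unfold HasTail
  have he : (fun y => (a y + b y) - (q1 + q2).eval y * chiM y)
      = fun y => (a y - q1.eval y * chiM y) + (b y - q2.eval y * chiM y) := by
    funext y; rw [Polynomial.eval_add]; ring
  rw [he]; exact h

theorem T_smul (c : ℝ) {a : ℝ → ℝ} (ha : IsT a) : IsT (fun y => c * a y) := by
  obtain ⟨q1, h1⟩ := ha
  refine ⟨Polynomial.C c * q1, ?_⟩
  have h := E_smul hE c h1
  unfold HasTail
  have he : (fun y => c * a y - (Polynomial.C c * q1).eval y * chiM y)
      = fun y => c * (a y - q1.eval y * chiM y) := by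
    funext y; rw [Polynomial.eval_mul, Polynomial.eval_C]; ring
  rw [he]; exact h

theorem tail_E {q : Polynomial ℝ} {a b : ℝ → ℝ} (ha : HasTail q a) (hb : IsE b) :
    HasTail q (fun y => a y + b y) := by
  have h := E_add hE ha hb
  unfold HasTail
  have he : (fun y => (a y + b y) - q.eval y * chiM y)
      = fun y => (a y - q.eval y * chiM y) + b y := by
    funext y; ring
  rw [he]; exact h

theorem tail_P {q : Polynomial ℝ} {a : ℝ → ℝ} (ha : HasTail q a) : IsP a := by
  have h := P_add hE (E_P hE ha) (P_mul hE (P_poly hE q) (P_chiM hE))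
  have he : (fun y => (a y - q.eval y * chiM y) + q.eval y * chiM y) = a := by
    funext y; ring
  rwa [he] at h

/-- derivative of a function with constant tail is in `IsE` -/
theorem tail_const_deriv {t : ℝ} {a : ℝ → ℝ} (ha : HasTail (Polynomial.C t) a) : IsE (deriv a) := by
  have h1 := E_deriv hE ha
  have hsech : IsE (fun y => 1 / (Real.cosh (2 * y)) ^ 2) := hE.2.2.2.2.2.2.2.2.2.2.2.2.2.1
  have hchi : ∀ y, HasDerivAt chiM (-(1 / (Real.cosh (2 * y)) ^ 2)) y := by
    intro y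
    have h2 : HasDerivAt (fun x : ℝ => 2 * x) 2 y := by
      simpa using (hasDerivAt_id y).const_mul 2
    have h3 : HasDerivAt Real.tanh (1 / Real.cosh (2 * y) ^ 2) (2 * y) := by
      have hs := Real.hasDerivAt_sinh (2 * y)
      have hc := Real.hasDerivAt_cosh (2 * y)
      have hne : Real.cosh (2 * y) ≠ 0 := (Real.cosh_pos _).ne'
      have h4 := hs.div hc hne
      have h5 : (Real.sinh / Real.cosh) = Real.tanh := by
        funext x; rw [Pi.div_apply, Real.tanh_eq_sinh_div_cosh]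
      rw [h5] at h4
      refine h4.congr_deriv ?_
      congr 1
      nlinarith [Real.cosh_sq (2 * y)]
    have h6 : HasDerivAt (fun x => Real.tanh (2 * x)) (1 / Real.cosh (2 * y) ^ 2 * 2) y :=
      HasDerivAt.comp y h3 h2
    have h7 := (h6.const_sub 1).div_const 2
    refine h7.congr_deriv ?_
    ring
  have h2 : ∀ y, HasDerivAt a
      (deriv (fun y => a y - (Polynomial.C t).eval y * chiM y) y + t * -(1 / (Real.cosh (2 * y)) ^ 2)) y := by
    intro y
    have h3 := (E_diff ha y).add ((hchi y).const_mul t)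
    have he : ((fun y => a y - (Polynomial.C t).eval y * chiM y) + fun y => t * chiM y) = a := by
      funext z; simp
    rw [he] at h3
    exact h3
  have h3 : deriv a = fun y => deriv (fun y => a y - (Polynomial.C t).eval y * chiM y) y
      + (-t) * (1 / (Real.cosh (2 * y)) ^ 2) := by
    funext y; rw [(h2 y).deriv]; ring
  rw [h3]
  exact E_add hE h1 (E_smul hE (-t) hsech)

theorem T_of_E {a : ℝ → ℝ} (ha : IsE a) : IsT a := by
  refine ⟨0, ?_⟩
  unfold HasTail
  have he : (fun y => a y - Polynomial.eval y 0 * chiM y) = a := by funext y; simp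
  rw [he]; exact ha

theorem T_zero : IsT (fun _ => (0 : ℝ)) := by
  have h := T_smul hE 0 (T_of_E hE (hE.2.2.2.2.2.2.2.2.2.2.2.2.2.1))
  simpa using h

end T

/-! ### membership in `LT` and `LP` -/

theorem LT_gen (n : ℕ) {a : ℝ → ℝ} (ha : IsT a) : (fun l y => l ^ n * a y) ∈ LT :=
  Submodule.subset_span ⟨n, a, ha, rfl⟩

theorem LT_const {a : ℝ → ℝ} (ha : IsT a) : (fun _ y => a y : ℝ → ℝ → ℝ) ∈ LT := by
  have h := LT_gen 0 ha
  have he : (fun (l y : ℝ) => l ^ 0 * a y) = fun _ y => a y := by funext l y; simp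
  rwa [he] at h

theorem LT_poly (q : Polynomial ℝ) {a : ℝ → ℝ} (ha : IsT a) : (fun l y => q.eval l * a y) ∈ LT := by
  induction q using Polynomial.induction_on' with
  | add p q hp hq =>
    have h := LT.add_mem hp hq
    have he : ((fun l y => p.eval l * a y) + fun l y => q.eval l * a y)
        = fun l y => (p + q).eval l * a y := by
      funext l y; simp [Polynomial.eval_add]; ring
    rwa [he] at h
  | monomial n c =>
    have h := LT.smul_mem c (LT_gen n ha)
    have he : (c • fun l y => l ^ n * a y) = fun l y => (Polynomial.monomial n c).eval l * a y := by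
      funext l y; simp [Polynomial.eval_monomial]; ring
    rwa [he] at h

theorem LP_gen (n i : ℕ) : (fun l y => l ^ n * y ^ i : ℝ → ℝ → ℝ) ∈ LP :=
  Submodule.subset_span ⟨n, i, rfl⟩

theorem LP_poly (i : ℕ) (q : Polynomial ℝ) : (fun l y => q.eval l * y ^ i) ∈ LP := by
  induction q using Polynomial.induction_on' with
  | add p q hp hq =>
    have h := LP.add_mem hp hq
    have he : ((fun l y => p.eval l * y ^ i) + fun l y => q.eval l * y ^ i)
        = fun l y => (p + q).eval l * y ^ i := by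
      funext l y; simp [Polynomial.eval_add]; ring
    rwa [he] at h
  | monomial n c =>
    have h := LP.smul_mem c (LP_gen n i)
    have he : (c • fun l y => l ^ n * y ^ i) = fun l y => (Polynomial.monomial n c).eval l * y ^ i := by
      funext l y; simp [Polynomial.eval_monomial]; ring
    rwa [he] at h

theorem LP_q (q : Polynomial ℝ) : (fun l _ => q.eval l : ℝ → ℝ → ℝ) ∈ LP := by
  have h := LP_poly 0 q
  simpa using h

theorem LP_yq (q : Polynomial ℝ) (c : ℝ) :
    (fun l y => y * (q.derivative.eval l + c * q.eval l)) ∈ LP := by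
  have h := LP_poly 1 (q.derivative + Polynomial.C c * q)
  have he : (fun l y => (q.derivative + Polynomial.C c * q).eval l * y ^ 1)
      = fun l y => y * (q.derivative.eval l + c * q.eval l) := by
    funext l y; simp; ring
  rwa [he] at h

theorem LP_cy (c : ℝ) : (fun _ y => c * y : ℝ → ℝ → ℝ) ∈ LP := by
  have h := LP_poly 1 (Polynomial.C c)
  simpa using h

theorem LP_c (c : ℝ) : (fun _ _ => c : ℝ → ℝ → ℝ) ∈ LP := by
  have h := LP_poly 0 (Polynomial.C c)
  simpa using h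

theorem LT_fix (hE : S_ECL1) {e : ℝ → ℝ → ℝ} (he : e ∈ LT) (l : ℝ) : IsT (e l) := by
  refine Submodule.span_induction (p := fun e _ => IsT (e l)) ?_ ?_ ?_ ?_ he
  · rintro e ⟨n, a, ha, rfl⟩
    exact T_smul hE (l ^ n) ha
  · exact T_zero hE
  · intro x y _ _ hx hy
    exact T_add hE hx hy
  · intro c x _ hx
    exact T_smul hE c hx

theorem LP_fix {e : ℝ → ℝ → ℝ} (he : e ∈ LP) (l : ℝ) : ∃ p : Polynomial ℝ, ∀ y, e l y = p.eval y := by
  refine Submodule.span_induction (p := fun e _ => ∃ p : Polynomial ℝ, ∀ y, e l y = p.eval y)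
    ?_ ?_ ?_ ?_ he
  · rintro e ⟨n, i, rfl⟩
    exact ⟨Polynomial.C (l ^ n) * Polynomial.X ^ i, fun y => by simp⟩
  · exact ⟨0, fun y => by simp⟩
  · rintro x y _ _ ⟨p, hp⟩ ⟨q, hq⟩
    exact ⟨p + q, fun z => by simp [hp, hq]⟩
  · rintro c x _ ⟨p, hp⟩
    exact ⟨Polynomial.C c * p, fun z => by simp [hp]⟩

/-! ### independence of `ℓ` -/

theorem zero_of_small {d K : ℝ} (h : ∀ r : ℝ, 0 < r → r ≤ 1 → |d| ≤ K * r) : d = 0 := by
  by_contra hd
  have hd' : 0 < |d| := abs_pos.2 hd
  have hK : 0 ≤ |K| := abs_nonneg K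
  have hr : 0 < min 1 (|d| / (2 * (|K| + 1))) := lt_min one_pos (by positivity)
  have h1 := h _ hr (min_le_left _ _)
  have h2 : K * min 1 (|d| / (2 * (|K| + 1))) ≤ |K| * (|d| / (2 * (|K| + 1))) :=
    (mul_le_mul_of_nonneg_right (le_abs_self K) hr.le).trans
      (mul_le_mul_of_nonneg_left (min_le_right _ _) hK)
  have h3 : |K| * (|d| / (2 * (|K| + 1))) < |d| := by
    rw [← mul_div_assoc, div_lt_iff₀ (by positivity)]
    nlinarith
  linarith

theorem indep_of_bound {m : ℕ} {A : F3} {e : ℝ → ℝ → ℝ} (hA : ∀ r l y, A r l y = A r 0 y)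
    (hb : ∀ l y : ℝ, ∃ K : ℝ, ∀ r : ℝ, 0 < r → r ≤ 1 → |(A - lif m e) r l y| ≤ K * r ^ (m + 1)) :
    ∀ l y, e l y = e 0 y := by
  intro l y
  obtain ⟨K, hK⟩ := hb l y
  obtain ⟨K0, hK0⟩ := hb 0 y
  have h : e l y - e 0 y = 0 := by
    apply zero_of_small (K := K + K0)
    intro r hr hr1
    have h1 := hK r hr hr1
    have h2 := hK0 r hr hr1
    have h3 : (A - lif m e) r 0 y - (A - lif m e) r l y = r ^ m * (e l y - e 0 y) := by
      simp only [Pi.sub_apply, lif, hA r l y]
      ring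
    have hrm : 0 < r ^ m := pow_pos hr m
    have h4 : r ^ m * |e l y - e 0 y| ≤ r ^ m * ((K + K0) * r) := by
      calc r ^ m * |e l y - e 0 y| = |(A - lif m e) r 0 y - (A - lif m e) r l y| := by
            rw [h3, abs_mul, abs_of_pos hrm]
        _ ≤ |(A - lif m e) r 0 y| + |(A - lif m e) r l y| := abs_sub _ _
        _ ≤ K0 * r ^ (m + 1) + K * r ^ (m + 1) := add_le_add h2 h1
        _ = r ^ m * ((K + K0) * r) := by ring
    exact le_of_mul_le_mul_left h4 hrm
  linarith

theorem MT_indep (hM2 : S_MCL2) {m : ℕ} {A : F3} {e : ℝ → ℝ → ℝ} (hA : ∀ r l y, A r l y = A r 0 y)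
    (h : A - lif m e ∈ MT (m + 1)) : ∀ l y, e l y = e 0 y := by
  obtain ⟨C, n, hC⟩ := hM2.2.2.1 _ _ h
  refine indep_of_bound (m := m) hA fun l y => ?_
  rcases le_total 0 y with hy | hy
  · refine ⟨C * (1 + |l|) ^ n * Real.exp (-(y / 2)), fun r hr hr1 => ?_⟩
    have := (hC r l y hr hr1).1 hy
    calc _ ≤ _ := this
      _ = _ := by ring
  · refine ⟨C * (1 + |l|) ^ n * (1 + |y|) ^ n, fun r hr hr1 => ?_⟩
    have := (hC r l y hr hr1).2 hy
    calc _ ≤ _ := this
      _ = _ := by ring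

theorem MP_indep (hM2 : S_MCL2) {m : ℕ} {A : F3} {e : ℝ → ℝ → ℝ} (hA : ∀ r l y, A r l y = A r 0 y)
    (h : A - lif m e ∈ MP (m + 1)) : ∀ l y, e l y = e 0 y := by
  obtain ⟨C, n, hC⟩ := hM2.2.2.2 _ _ h
  refine indep_of_bound (m := m) hA fun l y => ?_
  refine ⟨C * (1 + |l|) ^ n * (1 + |y|) ^ n, fun r hr hr1 => ?_⟩
  have := hC r l y hr hr1
  calc _ ≤ _ := this
    _ = _ := by ring

theorem Bk_indep (α : ℝ) {F w : F3} (hF : ∀ r l y, F r l y = F r 0 y) (hw : ∀ r l y, w r l y = w r 0 y) :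
    ∀ r l y, Bk α F w r l y = Bk α F w r 0 y := by
  obtain ⟨F', rfl⟩ : ∃ F' : ℝ → ℝ → ℝ, F = fun r _ y => F' r y :=
    ⟨fun r y => F r 0 y, by funext r l y; exact hF r l y⟩
  obtain ⟨w', rfl⟩ : ∃ w' : ℝ → ℝ → ℝ, w = fun r _ y => w' r y :=
    ⟨fun r y => w r 0 y, by funext r l y; exact hw r l y⟩
  intro r l y
  simp only [Bk, Dop, dY, deriv_const']

/-! ### one step -/

theorem step {α : ℝ} {R : ℝ → ℝ} {Fam : (ℕ → Polynomial ℝ) → F3} {p : ℕ → Polynomial ℝ} {j : ℕ} {w : F3}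
    {ω0 : ℝ → ℝ → ℝ} {q : Polynomial ℝ}
    (hq : ∀ δ ∈ MP (j + 3), ∃ e' ∈ LT, (∀ l, (∫ y, e' l y * Q y) = 0) ∧
        Bk α (Fam p + lif (j + 1) (fun l _ => q.eval l)
            + lif (j + 2) (fun l y => y * (q.derivative.eval l + (α - 1/2 + 2 * α * j) * q.eval l)) + δ)
          (w + lif (j + 1) (fun l y => ω0 l y + q.eval l * R y)) - lif (j + 2) e' ∈ MT (j + 3))
    (hδ : Fam (Function.update p j q) - Fam p - lif (j + 1) (fun l _ => q.eval l)
        - lif (j + 2) (fun l y => y * (q.derivative.eval l + (α - 1/2 + 2 * α * j) * q.eval l))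
          ∈ MP (j + 3)) :
    ∃ e' ∈ LT, (∀ l, (∫ y, e' l y * Q y) = 0) ∧
      Bk α (Fam (Function.update p j q)) (w + lif (j + 1) (fun l y => ω0 l y + q.eval l * R y))
        - lif (j + 2) e' ∈ MT (j + 3) := by
  obtain ⟨e', he', hint, hB⟩ := hq _ hδ
  refine ⟨e', he', hint, ?_⟩
  have he : Fam p + lif (j + 1) (fun l _ => q.eval l)
      + lif (j + 2) (fun l y => y * (q.derivative.eval l + (α - 1/2 + 2 * α * j) * q.eval l))
      + (Fam (Function.update p j q) - Fam p - lif (j + 1) (fun l _ => q.eval l)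
        - lif (j + 2) (fun l y => y * (q.derivative.eval l + (α - 1/2 + 2 * α * j) * q.eval l)))
      = Fam (Function.update p j q) := by abel
  rw [he] at hB
  exact hB

theorem Fam_diff (hM : S_MCL1) {α : ℝ} {Fam : (ℕ → Polynomial ℝ) → F3} {p : ℕ → Polynomial ℝ} {j : ℕ}
    {q : Polynomial ℝ}
    (hδ : Fam (Function.update p j q) - Fam p - lif (j + 1) (fun l _ => q.eval l)
        - lif (j + 2) (fun l y => y * (q.derivative.eval l + (α - 1/2 + 2 * α * j) * q.eval l))
          ∈ MP (j + 3)) : Fam (Function.update p j q) - Fam p ∈ MP (j + 1) := by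
  have h1 : lif (j + 1) (fun l _ => q.eval l) ∈ MP (j + 1) :=
    hM.2.2.2.2.2.2.2.2.2.2.2.2.2.2.1 _ _ (LP_q q)
  have h2 : lif (j + 2) (fun l y => y * (q.derivative.eval l + (α - 1/2 + 2 * α * j) * q.eval l))
      ∈ MP (j + 1) :=
    hM.2.1 _ _ (by omega) (hM.2.2.2.2.2.2.2.2.2.2.2.2.2.2.1 _ _ (LP_yq q _))
  have h3 := hM.2.1 (j + 1) (j + 3) (by omega) hδ
  have h4 := (MP (j + 1)).add_mem ((MP (j + 1)).add_mem h3 h2) h1
  have he : Fam (Function.update p j q) - Fam p - lif (j + 1) (fun l _ => q.eval l)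
        - lif (j + 2) (fun l y => y * (q.derivative.eval l + (α - 1/2 + 2 * α * j) * q.eval l))
        + lif (j + 2) (fun l y => y * (q.derivative.eval l + (α - 1/2 + 2 * α * j) * q.eval l))
        + lif (j + 1) (fun l _ => q.eval l) = Fam (Function.update p j q) - Fam p := by abel
  rwa [he] at h4

/-! ### the second order coefficient -/

noncomputable def E2 (α : ℝ) (R P : ℝ → ℝ) : ℝ → ℝ := fun y => 2 * α * wOne α R P y
        + deriv (fun y' => 5 * Q y' ^ 4 * (kOne α * (α - 1/2) * y')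
            + 10 * Q y' ^ 3 * (kOne α + wOne α R P y') ^ 2) y
        - (2 * α + 1) * (wOne α R P y / 2 + y * deriv (wOne α R P) y)

theorem wOne_tail (hE : S_ECL1) {α : ℝ} {R P : ℝ → ℝ} (hRP : IsRP R P) :
    HasTail (Polynomial.C (-(2 * kOne α))) (wOne α R P) := by
  have h1 := E_smul hE (kOne α) hRP.R_E
  have h2 := E_smul hE (-(2 * α + 1)) hRP.P_tail
  have h3 := E_add hE h1 h2
  unfold HasTail
  have he : (fun y => wOne α R P y - (Polynomial.C (-(2 * kOne α))).eval y * chiM y)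
      = fun y => kOne α * R y + -(2 * α + 1) * (P y - (Polynomial.C ((∫ y, Q y) / 2)).eval y * chiM y) := by
    funext y
    simp only [wOne, kOne, Polynomial.eval_C]
    ring
  rw [he]; exact h3

theorem E2_tail (hQ : S_QF) (hE : S_ECL1) {α : ℝ} {R P : ℝ → ℝ} (hRP : IsRP R P) :
    HasTail (Polynomial.C (-(2 * kOne α * (α - 1/2)))) (E2 α R P) := by
  have hw := wOne_tail hE (α := α) hRP
  have hwP := tail_P hE hw
  have hw' := tail_const_deriv hE hw
  have hQE := isE_Q hQ
  have hQP := E_P hE hQE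
  have hQ3 : IsE (fun y => Q y ^ 3) := by
    have h := PE_mul hE hQP (PE_mul hE hQP hQE)
    have he : (fun y => Q y * (Q y * Q y)) = fun y => Q y ^ 3 := by funext y; ring
    rwa [he] at h
  have hQ4 : IsE (fun y => Q y ^ 4) := by
    have h := PE_mul hE hQP hQ3
    have he : (fun y => Q y * Q y ^ 3) = fun y => Q y ^ 4 := by funext y; ring
    rwa [he] at h
  have hD : IsE (deriv (fun y' => 5 * Q y' ^ 4 * (kOne α * (α - 1/2) * y')
            + 10 * Q y' ^ 3 * (kOne α + wOne α R P y') ^ 2)) := by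
    apply E_deriv hE
    have h1 := PE_mul hE (P_mul hE (P_const hE (5 * (kOne α * (α - 1/2)))) (P_id hE)) hQ4
    have hs := P_add hE (P_const hE (kOne α)) hwP
    have h2 := PE_mul hE (P_mul hE (P_const hE 10) (P_mul hE hs hs)) hQ3
    have h3 := E_add hE h1 h2
    have he : (fun y => 5 * (kOne α * (α - 1/2)) * y * Q y ^ 4
        + 10 * ((kOne α + wOne α R P y) * (kOne α + wOne α R P y)) * Q y ^ 3)
        = fun y' => 5 * Q y' ^ 4 * (kOne α * (α - 1/2) * y')
            + 10 * Q y' ^ 3 * (kOne α + wOne α R P y') ^ 2 := by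
      funext y; ring
    rwa [he] at h3
  have hyw := PE_mul hE (P_id hE) hw'
  have h4 := E_add hE (E_smul hE (α - 1/2) hw) (E_add hE hD (E_smul hE (-(2 * α + 1)) hyw))
  unfold HasTail
  have he : (fun y => E2 α R P y - (Polynomial.C (-(2 * kOne α * (α - 1/2)))).eval y * chiM y)
      = fun y => (α - 1/2) * (wOne α R P y - (Polynomial.C (-(2 * kOne α))).eval y * chiM y)
        + (deriv (fun y' => 5 * Q y' ^ 4 * (kOne α * (α - 1/2) * y')
            + 10 * Q y' ^ 3 * (kOne α + wOne α R P y') ^ 2) y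
          + -(2 * α + 1) * (y * deriv (wOne α R P) y)) := by
    funext y
    simp only [E2, Polynomial.eval_C]
    ring
  rw [he]; exact h4

theorem poly_lin {q P1 : Polynomial ℝ} {t : ℝ} (h1 : P1.derivative = Polynomial.C t)
    (h2 : q - q.derivative.derivative = P1) : ∃ b, q = Polynomial.C b + Polynomial.C t * Polynomial.X := by
  have h3 : (P1 - Polynomial.C t * Polynomial.X).derivative = 0 := by
    simp [h1]
  have h4 := Polynomial.eq_C_of_natDegree_eq_zero (Polynomial.derivative_eq_zero.1 h3)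
  set b := (P1 - Polynomial.C t * Polynomial.X).coeff 0
  have h5 : P1 = Polynomial.C b + Polynomial.C t * Polynomial.X := by
    rw [← h4]; ring
  have h6 : P1.natDegree ≤ 1 := by
    rw [h5]
    refine (Polynomial.natDegree_add_le _ _).trans (max_le (by simp) ?_)
    exact (Polynomial.natDegree_C_mul_le _ _).trans (by simp)
  have h7 : q = P1 + q.derivative.derivative := by rw [← h2]; ring
  have h8 : q.natDegree ≤ max P1.natDegree q.derivative.derivative.natDegree := by
    conv_lhs => rw [h7]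
    exact Polynomial.natDegree_add_le _ _
  have h9 : q.derivative.natDegree ≤ q.natDegree - 1 := Polynomial.natDegree_derivative_le q
  have h10 : q.derivative.derivative.natDegree ≤ q.derivative.natDegree - 1 :=
    Polynomial.natDegree_derivative_le _
  have h11 : q.natDegree ≤ 1 := by
    rcases le_max_iff.1 h8 with h | h <;> omega
  have h12 : q.derivative.derivative = 0 := by
    apply Polynomial.derivative_eq_zero.2
    omega
  rw [h12, add_zero] at h7
  exact ⟨b, h7.trans h5⟩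

/-! ### iteration -/

/-- the state before the step `j` -/
structure St (α : ℝ) (Fam : (ℕ → Polynomial ℝ) → F3) (F2 w2 : F3) (A0 A1 : Polynomial ℝ) (j : ℕ)
    (p : ℕ → Polynomial ℝ) (w : F3) (e : ℝ → ℝ → ℝ) : Prop where
  p0 : p 0 = A0
  p1 : p 1 = A1
  pz : ∀ i, j ≤ i → p i = 0
  wm : w ∈ MT 1
  wd : w - w2 ∈ MT 4
  Fd : Fam p - F2 ∈ MP 4
  eL : e ∈ LT
  ei : ∀ l, (∫ y, e l y * Q y) = 0
  Bm : Bk α (Fam p) w - lif (j + 1) e ∈ MT (j + 2)

theorem iterate (hM : S_MCL1) (hL : S_LSOLVE) (hC : S_CSTEP)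
    {α : ℝ} {R P : ℝ → ℝ} (h0 : 0 < α) (h1 : α < 1) (hRP : IsRP R P) (hRT : IsT R) {J : ℕ}
    {Fam : (ℕ → Polynomial ℝ) → F3} (hF1 : ∀ p, Fam p ∈ MP 1)
    (hF3 : ∀ p j q, 1 ≤ j → j < J → p j = 0 →
      Fam (Function.update p j q) - Fam p - lif (j + 1) (fun l _ => q.eval l)
        - lif (j + 2) (fun l y => y * (q.derivative.eval l + (α - 1/2 + 2 * α * j) * q.eval l))
          ∈ MP (j + 3)) {F2 w2 : F3} {A0 A1 : Polynomial ℝ}
    (hF2 : F2 - lif 1 (fun _ _ => kOne α) ∈ MP 2) (hw2 : w2 - lif 1 (fun _ y => wOne α R P y) ∈ MT 2)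
    {p : ℕ → Polynomial ℝ} {w : F3} {e : ℝ → ℝ → ℝ} (hst : St α Fam F2 w2 A0 A1 3 p w e) (n : ℕ) :
    3 + n ≤ J → ∃ p w e, St α Fam F2 w2 A0 A1 (3 + n) p w e := by
  have mMT := hM.1
  have mMP := hM.2.1
  have lifT := hM.2.2.2.2.2.2.2.2.2.2.2.2.2.1
  induction n with
  | zero => intro _; exact ⟨p, w, e, hst⟩
  | succ n ih =>
    intro hn
    obtain ⟨p, w, e, st⟩ := ih (by omega)
    set j := 3 + n with hj
    have hjJ : j < J := by omega
    obtain ⟨ω0, hω0, hω0e⟩ := hL.1 e st.eL st.ei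
    have hFk : Fam p - lif 1 (fun _ _ => kOne α) ∈ MP 2 := by
      have h := (MP 2).add_mem (mMP 2 4 (by omega) st.Fd) hF2
      have he : Fam p - F2 + (F2 - lif 1 (fun _ _ => kOne α)) = Fam p - lif 1 (fun _ _ => kOne α) := by abel
      rwa [he] at h
    have hwk : w - lif 1 (fun _ y => wOne α R P y) ∈ MT 2 := by
      have h := (MT 2).add_mem (mMT 2 4 (by omega) st.wd) hw2
      have he : w - w2 + (w2 - lif 1 (fun _ y => wOne α R P y)) = w - lif 1 (fun _ y => wOne α R P y) := by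
        abel
      rwa [he] at h
    obtain ⟨q, hq, -⟩ := hC α R P h0 h1 hRP j (Fam p) w e ω0 (by omega) (hF1 p) st.wm hFk hwk st.eL hω0
      st.Bm st.ei hω0e
    have hδ := hF3 p j q (by omega) hjJ (st.pz j le_rfl)
    obtain ⟨e', he', hint, hBk⟩ := step hq hδ
    have hFd := Fam_diff hM hδ
    have hadd : (fun l y => ω0 l y + q.eval l * R y) ∈ LT := LT.add_mem hω0 (LT_poly q hRT)
    have hlif := lifT (j + 1) _ hadd
    refine ⟨Function.update p j q, w + lif (j + 1) (fun l y => ω0 l y + q.eval l * R y), e', ?_⟩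
    refine ⟨?_, ?_, ?_, ?_, ?_, ?_, he', hint, ?_⟩
    · rw [Function.update_of_ne (by omega)]; exact st.p0
    · rw [Function.update_of_ne (by omega)]; exact st.p1
    · intro i hi
      rw [Function.update_of_ne (by omega)]; exact st.pz i (by omega)
    · exact (MT 1).add_mem st.wm (mMT 1 (j + 1) (by omega) hlif)
    · have h := (MT 4).add_mem st.wd (mMT 4 (j + 1) (by omega) hlif)
      have he : w - w2 + lif (j + 1) (fun l y => ω0 l y + q.eval l * R y)
          = w + lif (j + 1) (fun l y => ω0 l y + q.eval l * R y) - w2 := by abel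
      rwa [he] at h
    · have h := (MP 4).add_mem (mMP 4 (j + 1) (by omega) hFd) st.Fd
      have he : Fam (Function.update p j q) - Fam p + (Fam p - F2) = Fam (Function.update p j q) - F2 := by
        abel
      rwa [he] at h
    · exact hBk

theorem lop_R {R P : ℝ → ℝ} (hRP : IsRP R P) (y : ℝ) : Lop R y = 5 * Q y ^ 4 := by
  have h := hRP.R_eq y
  unfold Lop at h ⊢
  have hd1 : deriv (fun x => 1 + R x) = deriv R := by
    funext x; exact deriv_const_add 1
  rw [hd1] at h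
  linarith

theorem lop_add {f g : ℝ → ℝ} (hE : S_ECL1) (hf : IsP f) (hg : IsP g) (c : ℝ) (y : ℝ) :
    Lop (fun y => f y + c * g y) y = Lop f y + c * Lop g y := by
  have h1 : deriv (fun y => f y + c * g y) = fun y => deriv f y + c * deriv g y := by
    funext z; exact ((P_diff hf z).add ((P_diff hg z).const_mul c)).deriv
  have h2 : deriv (fun y => deriv f y + c * deriv g y) y = deriv (deriv f) y + c * deriv (deriv g) y :=
    ((P_diff (P_deriv hE hf) y).add ((P_diff (P_deriv hE hg) y).const_mul c)).deriv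
  unfold Lop
  rw [h1, h2]
  ring

theorem call (hQ : S_QF) (hE : S_ECL1) (hS : S_SOLVEP) (hM : S_MCL1) (hM2 : S_MCL2) (hB : S_BEXP)
    (hP : S_PAIR) (hL : S_LSOLVE) (hC : S_CSTEP) : S_CALL := by
  intro α R P h0 h1 hRP J Fam hJ hF1 hFl hF2 hF3
  obtain ⟨hw1T, hPa, hPb, -, -, hPe⟩ := hP α R P hRP
  have mMT := hM.1
  have mMP := hM.2.1
  have lifT := hM.2.2.2.2.2.2.2.2.2.2.2.2.2.1
  have lifP := hM.2.2.2.2.2.2.2.2.2.2.2.2.2.2.1
  have hRT : IsT R := T_of_E hE hRP.R_E
  have hRPo : IsP R := E_P hE hRP.R_E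
  -- step 0
  set p0 : ℕ → Polynomial ℝ := fun j => if j = 0 then Polynomial.C (kOne α) else 0 with hp0
  have hp00 : p0 0 = Polynomial.C (kOne α) := by simp [hp0]
  have hp0z : ∀ j, 1 ≤ j → p0 j = 0 := by
    intro j hj
    simp only [hp0]
    rw [if_neg (by omega)]
  have hp0c : ∀ j, ∃ c : ℝ, p0 j = Polynomial.C c := by
    intro j
    by_cases hj : j = 0
    · exact ⟨kOne α, by simp [hp0, hj]⟩
    · exact ⟨0, by simp [hp0, hj]⟩
  have hF0 := hF2 p0 hp00 hp0z
  have hF0k : Fam p0 - lif 1 (fun _ _ => kOne α) ∈ MP 2 := by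
    have h := (MP 2).add_mem (mMP 2 3 (by omega) hF0) (lifP 2 _ (LP_cy (kOne α * (α - 1/2))))
    have he : Fam p0 - lif 1 (fun _ _ => kOne α) - lif 2 (fun _ y => kOne α * (α - 1/2) * y)
        + lif 2 (fun _ y => kOne α * (α - 1/2) * y) = Fam p0 - lif 1 (fun _ _ => kOne α) := by abel
    rwa [he] at h
  set w0 : F3 := lif 1 (fun _ y => wOne α R P y) with hw0
  have hw0m : w0 ∈ MT 1 := lifT 1 _ (LT_const hw1T)
  have hw0k : w0 - lif 1 (fun _ y => wOne α R P y) ∈ MT 2 := by
    rw [hw0, sub_self]; exact (MT 2).zero_mem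
  have hB0 : Bk α (Fam p0) w0 - lif (1 + 1) (fun _ y => E2 α R P y) ∈ MT (1 + 2) := by
    have h := hB α (kOne α) (kOne α * (α - 1/2)) (wOne α R P) (Fam p0) hw1T hF0
    have hz : lif 1 (fun _ y => deriv (fun y' => 5 * Q y' ^ 4 * kOne α - Lop (wOne α R P) y') y
        - (2 * α + 1) * Lam Q y) = 0 := by
      funext r l y
      simp only [lif, hPa]
      simp
    rw [hz, sub_zero] at h
    exact h
  have hE2T := E2_tail hQ hE (α := α) hRP
  have hE2i : (∫ y, E2 α R P y * Q y) = 0 := hPb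
  obtain ⟨q2, P1, ω20, hq2, hω20, hP1, hqP, -⟩ := hS _ _ hE2T hE2i
  obtain ⟨b, hb⟩ := poly_lin hP1 hqP
  have hω20T : IsT ω20 := ⟨q2, hq2⟩
  have hω20P : IsP ω20 := tail_P hE hq2
  -- step j = 1
  obtain ⟨q1, hq1, hq1c⟩ := hC α R P h0 h1 hRP 1 (Fam p0) w0 (fun _ y => E2 α R P y) (fun _ y => ω20 y)
    le_rfl (hF1 p0) hw0m hF0k hw0k (LT_const ⟨_, hE2T⟩) (LT_const hω20T) hB0 (fun _ => hE2i)
    (fun _ y => (hω20 y).deriv)
  have hF0l := hFl p0 hp0c
  obtain ⟨c1, hc1⟩ := hq1c (by push_cast; linarith) hF0l (fun r l y => rfl) (fun l y => rfl)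
  subst hc1
  have hδ1 := hF3 p0 1 (Polynomial.C c1) le_rfl (by omega) (hp0z 1 le_rfl)
  obtain ⟨e3', he3', hint3, hBk3⟩ := step hq1 hδ1
  set p1 := Function.update p0 1 (Polynomial.C c1) with hp1
  set w1' := w0 + lif (1 + 1) (fun l y => ω20 y + (Polynomial.C c1).eval l * R y) with hw1'
  have hp1c : ∀ j, ∃ c : ℝ, p1 j = Polynomial.C c := by
    intro j
    by_cases hj : j = 1
    · subst hj; exact ⟨c1, by simp [hp1]⟩
    · rw [hp1, Function.update_of_ne hj]; exact hp0c j
  have hF1l := hFl p1 hp1c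
  have hFd1 := Fam_diff hM hδ1
  set ω2 : ℝ → ℝ := fun y => ω20 y + c1 * R y with hω2
  have hω2tail : HasTail (Polynomial.C b - Polynomial.C (2 * kOne α * (α - 1/2)) * Polynomial.X) ω2 := by
    have h := tail_E hE hq2 (E_smul hE c1 hRP.R_E)
    have he : q2 = Polynomial.C b - Polynomial.C (2 * kOne α * (α - 1/2)) * Polynomial.X := by
      rw [hb, Polynomial.C_neg]; ring
    rw [he] at h
    exact h
  have hω2T : IsT ω2 := ⟨_, hω2tail⟩
  have hw1eq : w1' = w0 + lif 2 (fun _ y => ω2 y) := by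
    rw [hw1']
    congr 1
    funext r l y
    simp [lif, hω2]
  have hw1l : ∀ r l y, w1' r l y = w1' r 0 y := by
    intro r l y
    rw [hw1eq]
    rfl
  have hw1m : w1' ∈ MT 1 := by
    rw [hw1eq]
    exact (MT 1).add_mem hw0m (mMT 1 2 (by omega) (lifT 2 _ (LT_const hω2T)))
  have hw1k : w1' - lif 1 (fun _ y => wOne α R P y) ∈ MT 2 := by
    have he : w1' - lif 1 (fun _ y => wOne α R P y) = lif 2 (fun _ y => ω2 y) := by
      rw [hw1eq, hw0]; abel
    rw [he]; exact lifT 2 _ (LT_const hω2T)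
  have hF1k : Fam p1 - lif 1 (fun _ _ => kOne α) ∈ MP 2 := by
    have h := (MP 2).add_mem hFd1 hF0k
    have he : Fam p1 - Fam p0 + (Fam p0 - lif 1 (fun _ _ => kOne α))
        = Fam p1 - lif 1 (fun _ _ => kOne α) := by abel
    rwa [he] at h
  -- the equation of v_2
  have hv2 := hPe c1 ω2 hω2T (by
    intro y
    have hl : Lop ω2 = fun y => Lop ω20 y + c1 * (5 * Q y ^ 4) := by
      funext z
      rw [hω2, lop_add hE hω20P hRPo c1 z, lop_R hRP z]
    have hd4 : DifferentiableAt ℝ (fun y' => 5 * Q y' ^ 4) y :=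
      ((Q_d hQ y).differentiableAt.pow 4).const_mul 5
    rw [hl]
    have h := ((hω20 y).add (hd4.hasDerivAt.const_mul c1)).deriv
    exact h)
  -- step j = 2
  have he3l : ∀ l y, e3' l y = e3' 0 y :=
    MT_indep hM2 (m := 3) (Bk_indep α hF1l hw1l) hBk3
  obtain ⟨q3, P3, ω30, hq3, hω30, -, -, -⟩ : ∃ (q P1 : Polynomial ℝ) (w : ℝ → ℝ), HasTail q w ∧
      (∀ y, HasDerivAt (Lop w) (e3' 0 y) y) ∧ True ∧ True ∧ True := by
    obtain ⟨qe, hqe⟩ := LT_fix hE he3' 0
    obtain ⟨q, P1, w, h1, h2, -⟩ := hS qe (e3' 0) hqe (hint3 0)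
    exact ⟨q, P1, w, h1, h2, trivial, trivial, trivial⟩
  have hω30T : IsT ω30 := ⟨q3, hq3⟩
  obtain ⟨qq, hqq, hqqc⟩ := hC α R P h0 h1 hRP 2 (Fam p1) w1' e3' (fun _ y => ω30 y)
    (by omega) (hF1 p1) hw1m hF1k hw1k he3' (LT_const hω30T) hBk3 hint3
    (fun l y => by rw [he3l l y]; exact (hω30 y).deriv)
  obtain ⟨c2, hc2⟩ := hqqc (by push_cast; intro h; linarith) hF1l hw1l (fun l y => rfl)
  subst hc2
  have hp1z : ∀ j, 2 ≤ j → p1 j = 0 := by
    intro j hj
    rw [hp1, Function.update_of_ne (by omega)]; exact hp0z j (by omega)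
  have hδ2 := hF3 p1 2 (Polynomial.C c2) (by omega) (by omega) (hp1z 2 le_rfl)
  obtain ⟨e4, he4, hint4, hBk4⟩ := step hqq hδ2
  set p2 := Function.update p1 2 (Polynomial.C c2) with hp2
  set w2' := w1' + lif (2 + 1) (fun l y => ω30 y + (Polynomial.C c2).eval l * R y) with hw2'
  have hFd2 := Fam_diff hM hδ2
  have hp2c : ∀ j, ∃ c : ℝ, p2 j = Polynomial.C c := by
    intro j
    by_cases hj : j = 2
    · subst hj; exact ⟨c2, by simp [hp2]⟩
    · rw [hp2, Function.update_of_ne hj]; exact hp1c j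
  have hF2l := hFl p2 hp2c
  set ω3 : ℝ → ℝ := fun y => ω30 y + c2 * R y with hω3
  have hω3T : IsT ω3 := T_add hE hω30T (T_smul hE c2 hRT)
  have hw2eq : w2' = lif 1 (fun _ y => wOne α R P y) + lif 2 (fun _ y => ω2 y) + lif 3 (fun _ y => ω3 y) := by
    rw [hw2', hw1eq, hw0]
    congr 1
    funext r l y
    simp [lif, hω3]
  have hw2m : w2' ∈ MT 1 := by
    rw [hw2eq]
    exact (MT 1).add_mem ((MT 1).add_mem hw0m (mMT 1 2 (by omega) (lifT 2 _ (LT_const hω2T))))
      (mMT 1 3 (by omega) (lifT 3 _ (LT_const hω3T)))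
  have hw2k : w2' - lif 1 (fun _ y => wOne α R P y) ∈ MT 2 := by
    have he : w2' - lif 1 (fun _ y => wOne α R P y) = lif 2 (fun _ y => ω2 y) + lif 3 (fun _ y => ω3 y) := by
      rw [hw2eq]; abel
    rw [he]
    exact (MT 2).add_mem (lifT 2 _ (LT_const hω2T)) (mMT 2 3 (by omega) (lifT 3 _ (LT_const hω3T)))
  have hF2k : Fam p2 - lif 1 (fun _ _ => kOne α) ∈ MP 2 := by
    have h := (MP 2).add_mem (mMP 2 3 (by omega) hFd2) hF1k
    have he : Fam p2 - Fam p1 + (Fam p1 - lif 1 (fun _ _ => kOne α))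
        = Fam p2 - lif 1 (fun _ _ => kOne α) := by abel
    rwa [he] at h
  -- the third order coefficient of the family
  have hA3 : Fam p2 - lif 1 (fun _ _ => kOne α) - lif 2 (fun _ y => kOne α * (α - 1/2) * y + c1) ∈ MP 3 := by
    have ha : lif (1 + 2) (fun l y => y * ((Polynomial.C c1).derivative.eval l
        + (α - 1/2 + 2 * α * ((1 : ℕ) : ℝ)) * (Polynomial.C c1).eval l)) ∈ MP 3 := lifP 3 _ (LP_yq _ _)
    have h := (MP 3).add_mem ((MP 3).add_mem ((MP 3).add_mem hFd2 (mMP 3 4 (by omega) hδ1)) ha) hF0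
    have he : Fam p2 - Fam p1 + (Fam p1 - Fam p0 - lif (1 + 1) (fun l _ => (Polynomial.C c1).eval l)
        - lif (1 + 2) (fun l y => y * ((Polynomial.C c1).derivative.eval l
          + (α - 1/2 + 2 * α * ((1 : ℕ) : ℝ)) * (Polynomial.C c1).eval l)))
        + lif (1 + 2) (fun l y => y * ((Polynomial.C c1).derivative.eval l
          + (α - 1/2 + 2 * α * ((1 : ℕ) : ℝ)) * (Polynomial.C c1).eval l))
        + (Fam p0 - lif 1 (fun _ _ => kOne α) - lif 2 (fun _ y => kOne α * (α - 1/2) * y))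
        = Fam p2 - lif 1 (fun _ _ => kOne α) - lif 2 (fun _ y => kOne α * (α - 1/2) * y + c1) := by
      have h2 : lif 2 (fun _ y => kOne α * (α - 1/2) * y + c1)
          = lif (1 + 1) (fun l _ => (Polynomial.C c1).eval l)
            + lif 2 (fun _ y => kOne α * (α - 1/2) * y) := by
        funext r l y
        simp [lif]
        ring
      rw [h2]; abel
    rwa [he] at h
  obtain ⟨e3, he3, hA4⟩ := hM2.2.1 3 _ hA3
  have he3l' : ∀ l y, e3 l y = e3 0 y := by
    refine MP_indep hM2 (m := 3) ?_ hA4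
    intro r l y
    simp only [Pi.sub_apply, lif, hF2l r l y]
  obtain ⟨pe3, hpe3⟩ := LP_fix he3 0
  have he3eq : lif 3 e3 = lif 3 (fun _ y => pe3.eval y) := by
    funext r l y
    simp only [lif, he3l' l y, hpe3]
  rw [he3eq] at hA4
  -- iteration
  have hst : St α Fam (Fam p2) w2' (Polynomial.C (kOne α)) (Polynomial.C c1) 3 p2 w2' e4 := by
    refine ⟨?_, ?_, ?_, hw2m, ?_, ?_, he4, hint4, hBk4⟩
    · rw [hp2, Function.update_of_ne (by omega), hp1, Function.update_of_ne (by omega)]; exact hp00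
    · rw [hp2, Function.update_of_ne (by omega), hp1, Function.update_self]
    · intro i hi
      rw [hp2, Function.update_of_ne (by omega)]; exact hp1z i (by omega)
    · rw [sub_self]; exact (MT 4).zero_mem
    · rw [sub_self]; exact (MP 4).zero_mem
  obtain ⟨n, hn⟩ : ∃ n, J = 3 + n := ⟨J - 3, by omega⟩
  obtain ⟨p, w, e, st⟩ := iterate hM hL hC h0 h1 hRP hRT hF1 hF3 hF2k hw2k hst n (by omega)
  rw [← hn] at st
  refine ⟨p, c1, b, ω2, ω3, pe3, w, st.p0, st.p1, st.pz, hω2tail, hv2, st.wm, hω3T, ?_, ?_, ?_⟩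
  · have he : w - lif 1 (fun _ y => wOne α R P y) - lif 2 (fun _ y => ω2 y) - lif 3 (fun _ y => ω3 y)
        = w - w2' := by rw [hw2eq]; abel
    rw [he]; exact st.wd
  · have h := (MP 4).add_mem st.Fd hA4
    have he : Fam p - Fam p2 + (Fam p2 - lif 1 (fun _ _ => kOne α)
        - lif 2 (fun _ y => kOne α * (α - 1/2) * y + c1) - lif 3 (fun _ y => pe3.eval y))
        = Fam p - lif 1 (fun _ _ => kOne α) - lif 2 (fun _ y => kOne α * (α - 1/2) * y + c1)
          - lif 3 (fun _ y => pe3.eval y) := by abel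
    rwa [he] at h
  · have h := (MT (J + 1)).add_mem (mMT (J + 1) (J + 2) (by omega) st.Bm) (lifT (J + 1) _ st.eL)
    have he : Bk α (Fam p) w - lif (J + 1) e + lif (J + 1) e = Bk α (Fam p) w := by abel
    rwa [he] at h

end Pool.Agent.Helper41.KV.H38

namespace Pool.Agent.Helper41.KV

theorem thm_CALL (hQ : S_QF) (hE : S_ECL1) (_hE2 : S_ECL2) (hS : S_SOLVEP) (hM : S_MCL1) (hM2 : S_MCL2)
    (hB : S_BEXP) (hP : S_PAIR) (hL : S_LSOLVE) (hC : S_CSTEP) : S_CALL :=
  H38.call hQ hE hS hM hM2 hB hP hL hC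

end Pool.Agent.Helper41.KV
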